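import Mathlib

/-! The inequalities between `k`, `j`, `q` (arithmetic part). -/

set_option autoImplicit false

namespace H65.WKA

theorem succ_pow_15 {u : ℕ} (hu : 22 ≤ u) : (u + 1) ^ 15 ≤ 4 * u ^ 15 := by
  have h1 : 22 * (u + 1) ≤ 23 * u := by omega
  have h2 := Nat.pow_le_pow_left h1 15
  rw [Nat.mul_pow, Nat.mul_pow] at h2
  have h3 : (23 : ℕ) ^ 15 ≤ 4 * 22 ^ 15 := by norm_num
  have h4 : 22 ^ 15 * (u + 1) ^ 15 ≤ 22 ^ 15 * (4 * u ^ 15) := by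
    calc 22 ^ 15 * (u + 1) ^ 15 ≤ 23 ^ 15 * u ^ 15 := h2
      _ ≤ (4 * 22 ^ 15) * u ^ 15 := Nat.mul_le_mul_right _ h3
      _ = 22 ^ 15 * (4 * u ^ 15) := by ring
  exact Nat.le_of_mul_le_mul_left h4 (by norm_num)

theorem succ_pow_5 {u : ℕ} (hu : 22 ≤ u) : (u + 1) ^ 5 ≤ 2 * u ^ 5 := by
  have h1 : 22 * (u + 1) ≤ 23 * u := by omega
  have h2 := Nat.pow_le_pow_left h1 5
  rw [Nat.mul_pow, Nat.mul_pow] at h2
  have h3 : (23 : ℕ) ^ 5 ≤ 2 * 22 ^ 5 := by norm_num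
  have h4 : 22 ^ 5 * (u + 1) ^ 5 ≤ 22 ^ 5 * (2 * u ^ 5) := by
    calc 22 ^ 5 * (u + 1) ^ 5 ≤ 23 ^ 5 * u ^ 5 := h2
      _ ≤ (2 * 22 ^ 5) * u ^ 5 := Nat.mul_le_mul_right _ h3
      _ = 22 ^ 5 * (2 * u ^ 5) := by ring
  exact Nat.le_of_mul_le_mul_left h4 (by norm_num)

theorem pow_15_le {u : ℕ} (hu : 22 ≤ u) : 409600 * u ^ 15 ≤ 25000 ^ 3 * 4 ^ u := by
  induction u, hu using Nat.le_induction with
  | base => norm_num
  | succ u hu ih =>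
    have := succ_pow_15 hu
    calc 409600 * (u + 1) ^ 15 ≤ 409600 * (4 * u ^ 15) := Nat.mul_le_mul_left _ this
      _ = 4 * (409600 * u ^ 15) := by ring
      _ ≤ 4 * (25000 ^ 3 * 4 ^ u) := Nat.mul_le_mul_left _ ih
      _ = 25000 ^ 3 * 4 ^ (u + 1) := by ring

theorem pow_5_le {u : ℕ} (hu : 22 ≤ u) : u ^ 5 ≤ 2 * 2 ^ u := by
  induction u, hu using Nat.le_induction with
  | base => norm_num
  | succ u hu ih =>
    have := succ_pow_5 hu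
    calc (u + 1) ^ 5 ≤ 2 * u ^ 5 := this
      _ ≤ 2 * (2 * 2 ^ u) := Nat.mul_le_mul_left _ ih
      _ = 2 * 2 ^ (u + 1) := by ring

/-- the cubic term -/
theorem term2 {J u k : ℕ} (hu : 22 ≤ u) (hk : 10 ^ 6 * J ^ 5 ≤ k) (h2 : 2 ^ u ≤ 16 * k) :
    40 * (J ^ 3 * u ^ 3) ≤ k := by
  by_cases hc : 40 * u ^ 3 ≤ 10 ^ 6 * J ^ 2
  · calc 40 * (J ^ 3 * u ^ 3) = J ^ 3 * (40 * u ^ 3) := by ring
      _ ≤ J ^ 3 * (10 ^ 6 * J ^ 2) := Nat.mul_le_mul_left _ hc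
      _ = 10 ^ 6 * J ^ 5 := by ring
      _ ≤ k := hk
  · push Not at hc
    have h3 : 25000 * J ^ 2 ≤ u ^ 3 := by
      have : 40 * (25000 * J ^ 2) < 40 * u ^ 3 := by
        calc 40 * (25000 * J ^ 2) = 10 ^ 6 * J ^ 2 := by ring
          _ < 40 * u ^ 3 := hc
      omega
    have h4 := Nat.pow_le_pow_left h3 3
    have h5 : 25000 ^ 3 * (J ^ 3 * u ^ 3) ^ 2 ≤ u ^ 15 := by
      calc 25000 ^ 3 * (J ^ 3 * u ^ 3) ^ 2 = (25000 * J ^ 2) ^ 3 * u ^ 6 := by ring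
        _ ≤ (u ^ 3) ^ 3 * u ^ 6 := Nat.mul_le_mul_right _ h4
        _ = u ^ 15 := by ring
    have h6 := pow_15_le hu
    have h7 : 4 ^ u ≤ 256 * k ^ 2 := by
      calc 4 ^ u = (2 ^ u) ^ 2 := by rw [← pow_mul, mul_comm, pow_mul]; norm_num
        _ ≤ (16 * k) ^ 2 := Nat.pow_le_pow_left h2 2
        _ = 256 * k ^ 2 := by ring
    have h8 : 25000 ^ 3 * 256 * (40 * (J ^ 3 * u ^ 3)) ^ 2 ≤ 25000 ^ 3 * 256 * k ^ 2 := by
      calc 25000 ^ 3 * 256 * (40 * (J ^ 3 * u ^ 3)) ^ 2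
          = 409600 * (25000 ^ 3 * (J ^ 3 * u ^ 3) ^ 2) := by ring
        _ ≤ 409600 * u ^ 15 := Nat.mul_le_mul_left _ h5
        _ ≤ 25000 ^ 3 * 4 ^ u := h6
        _ ≤ 25000 ^ 3 * (256 * k ^ 2) := Nat.mul_le_mul_left _ h7
        _ = 25000 ^ 3 * 256 * k ^ 2 := by ring
    have h9 : (40 * (J ^ 3 * u ^ 3)) ^ 2 ≤ k ^ 2 := Nat.le_of_mul_le_mul_left h8 (by norm_num)
    exact (Nat.pow_le_pow_iff_left (by norm_num)).1 h9

/-- the quartic term -/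
theorem term1 {J u k : ℕ} (hu : 22 ≤ u) (hk : 10 ^ 6 * J ^ 5 ≤ k) (h2 : 2 ^ u ≤ 16 * k) :
    3000 * (J ^ 4 * u) ≤ k := by
  by_cases hc : 3 * u ≤ 1000 * J
  · calc 3000 * (J ^ 4 * u) = 1000 * J ^ 4 * (3 * u) := by ring
      _ ≤ 1000 * J ^ 4 * (1000 * J) := Nat.mul_le_mul_left _ hc
      _ = 10 ^ 6 * J ^ 5 := by ring
      _ ≤ k := hk
  · push Not at hc
    have h3 : 300 * J ≤ u := by omega
    have h4 := Nat.pow_le_pow_left h3 4
    have h5 := pow_5_le hu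
    have h6 : 300 ^ 4 * (J ^ 4 * u) ≤ 32 * k := by
      calc 300 ^ 4 * (J ^ 4 * u) = (300 * J) ^ 4 * u := by ring
        _ ≤ u ^ 4 * u := Nat.mul_le_mul_right _ h4
        _ = u ^ 5 := by ring
        _ ≤ 2 * 2 ^ u := h5
        _ ≤ 2 * (16 * k) := Nat.mul_le_mul_left _ h2
        _ = 32 * k := by ring
    generalize J ^ 4 * u = X at *
    norm_num at h6
    omega

theorem choose_sum_le (m j : ℕ) : m.choose (j + 1) + m.choose j ≤ (m + 1) ^ (j + 1) := by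
  have h1 : m.choose (j + 1) + m.choose j = (m + 1).choose (j + 1) := by
    rw [Nat.choose_succ_succ, add_comm]
  rw [h1]
  exact Nat.choose_le_pow (m + 1) (j + 1)

theorem pow_lt (m j : ℕ) : ((m.choose (j + 1) + m.choose j) *
    2 ^ (2 * ((j + 1) * (Nat.log 2 (m + 1) + 1)))) < 3 ^ (2 * ((j + 1) * (Nat.log 2 (m + 1) + 1))) := by
  set L := Nat.log 2 (m + 1) + 1 with hL
  have h1 : m + 1 < 2 ^ L := Nat.lt_pow_succ_log_self (by norm_num) _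
  have h2 : (m + 1) ^ (j + 1) ≤ 2 ^ ((j + 1) * L) := by
    rw [mul_comm, pow_mul]
    exact Nat.pow_le_pow_left h1.le _
  have h3 : (j + 1) * L ≠ 0 := by positivity
  calc (m.choose (j + 1) + m.choose j) * 2 ^ (2 * ((j + 1) * L))
      ≤ 2 ^ ((j + 1) * L) * 2 ^ (2 * ((j + 1) * L)) :=
        Nat.mul_le_mul_right _ ((choose_sum_le m j).trans h2)
    _ = 8 ^ ((j + 1) * L) := by
        rw [← pow_add]
        rw [show (j + 1) * L + 2 * ((j + 1) * L) = 3 * ((j + 1) * L) by ring, pow_mul]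
        norm_num
    _ < 9 ^ ((j + 1) * L) := Nat.pow_lt_pow_left (by norm_num) h3
    _ = 3 ^ (2 * ((j + 1) * L)) := by rw [pow_mul 3 2]; norm_num

theorem asym' {j k : ℕ} (hk : 10 ^ 6 * (j + 1) ^ 5 ≤ k) :
    ∃ q : ℕ, ((k + j + 1).choose (j + 1) + (k + j + 1).choose j) * 2 ^ q < 3 ^ q ∧
      3 * j * (100 * (j + 1) ^ 2 * ((q + j) + j + 1)) + 2 * (q + j + 4) ^ 3 + 2 * (q + j) + 20 ≤ k := by
  refine ⟨2 * ((j + 1) * (Nat.log 2 (k + j + 1 + 1) + 1)), pow_lt _ _, ?_⟩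
  set l := Nat.log 2 (k + j + 1 + 1) with hl
  have hJ5 : j + 1 ≤ (j + 1) ^ 5 := Nat.le_self_pow (by norm_num) _
  have hk6 : 10 ^ 6 * (j + 1) ≤ k := (Nat.mul_le_mul_left _ hJ5).trans hk
  have h1 : 2 ^ l ≤ k + j + 1 + 1 := Nat.pow_log_le_self 2 (by omega)
  have hu : 22 ≤ l + 3 := by
    have : 19 ≤ l := by
      rw [hl]
      apply Nat.le_log_of_pow_le (by norm_num)
      norm_num
      omega
    omega
  have h2 : 2 ^ (l + 3) ≤ 16 * k := by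
    rw [pow_add]
    omega
  have t1 := term1 (J := j + 1) hu hk h2
  have t2 := term2 (J := j + 1) hu hk h2
  set J := j + 1 with hJ
  set u := l + 3 with hu'
  have e1 : 3 * j * (100 * J ^ 2 * ((2 * (J * (l + 1)) + j) + j + 1)) ≤ 600 * (J ^ 4 * u) := by
    have a1 : (2 * (J * (l + 1)) + j) + j + 1 ≤ 2 * (J * u) := by
      have : J * u = J * (l + 1) + 2 * J := by rw [hu']; ring
      omega
    calc 3 * j * (100 * J ^ 2 * ((2 * (J * (l + 1)) + j) + j + 1))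
        ≤ 3 * J * (100 * J ^ 2 * (2 * (J * u))) := by
          apply Nat.mul_le_mul (Nat.mul_le_mul_left _ (by omega)) (Nat.mul_le_mul_left _ a1)
      _ = 600 * (J ^ 4 * u) := by ring
  have e2 : 2 * (2 * (J * (l + 1)) + j + 4) ^ 3 ≤ 16 * (J ^ 3 * u ^ 3) := by
    have a1 : 2 * (J * (l + 1)) + j + 4 ≤ 2 * (J * u) := by
      have : J * u = J * (l + 1) + 2 * J := by rw [hu']; ring
      omega
    calc 2 * (2 * (J * (l + 1)) + j + 4) ^ 3 ≤ 2 * (2 * (J * u)) ^ 3 :=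
          Nat.mul_le_mul_left _ (Nat.pow_le_pow_left a1 3)
      _ = 16 * (J ^ 3 * u ^ 3) := by ring
  have e3 : 2 * (2 * (J * (l + 1)) + j) + 20 ≤ 5 * (J ^ 4 * u) := by
    have a1 : J * u = J * (l + 1) + 2 * J := by rw [hu']; ring
    have a2 : J * u ≤ J ^ 4 * u := Nat.mul_le_mul_right _ (Nat.le_self_pow (by norm_num) _)
    have a3 : 1 * 22 ≤ J * u := Nat.mul_le_mul (by omega) hu
    have a4 : 2 * (2 * (J * (l + 1)) + j) + 20 ≤ 4 * (J * u) + 14 := by omega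
    omega
  generalize J ^ 4 * u = X at *
  generalize J ^ 3 * u ^ 3 = Y at *
  omega

end H65.WKA
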